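import Mathlib
import Pool.Agent.Work.MP_f3d170_co_h45.Defs

set_option autoImplicit false

open Set Matroid
open Pool.Agent.Work.MP_f3d170_co_h45 (RankMatroid)

namespace Pool.Agent.Work.MP_f3d170_co_helper60

/-! ### Greedy count of proper colourings -/

section Colour

variable {V : Type*} [Fintype V] [DecidableEq V]

open Classical in
theorem count_colourings (adj : V → V → Prop) (hirr : ∀ v, ¬ adj v v)
    (hsymm : ∀ u v, adj u v → adj v u) (Δ M : ℕ) (hM : 0 < M)
    (hdeg : ∀ v, (Finset.univ.filter (fun u => adj v u)).card ≤ Δ) :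
    (M - Δ) ^ Fintype.card V ≤
      (Finset.univ.filter (fun f : V → Fin M => ∀ u v, adj u v → f u ≠ f v)).card := by
  set d : Fin M := ⟨0, hM⟩ with hd
  set P : Finset V → Finset (V → Fin M) := fun S => Finset.univ.filter (fun f =>
    (∀ u ∈ S, ∀ v ∈ S, adj u v → f u ≠ f v) ∧ ∀ u, u ∉ S → f u = d) with hP
  suffices H : ∀ S : Finset V, (M - Δ) ^ S.card ≤ (P S).card by
    refine (H Finset.univ).trans (Finset.card_le_card ?_)
    intro f hf
    rw [hP] at hf
    simp only [Finset.mem_filter, Finset.mem_univ, true_and, true_implies,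
      not_true_eq_false, false_implies, implies_true, and_true] at hf ⊢
    exact hf
  intro S
  induction S using Finset.induction_on with
  | empty =>
    have : (fun _ => d) ∈ P ∅ := by
      rw [hP]; simp
    have := Finset.card_pos.2 ⟨_, this⟩
    simpa using this
  | insert v S hv ih =>
    rw [Finset.card_insert_of_notMem hv]
    set T := (P S).sigma (fun f => Finset.univ.filter
      (fun c : Fin M => c ∉ (Finset.univ.filter (fun u => adj v u)).image f)) with hT
    have h1 : T.card ≤ (P (insert v S)).card := by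
      refine Finset.card_le_card_of_injOn (fun p => Function.update p.1 v p.2) ?_ ?_
      · rintro ⟨f, c⟩ hp
        rw [Finset.mem_coe, hT, Finset.mem_sigma] at hp
        obtain ⟨hf, hc⟩ := hp
        simp only [hP, Finset.mem_filter, Finset.mem_univ, true_and] at hf
        obtain ⟨hf1, hf2⟩ := hf
        simp only [Finset.mem_filter, Finset.mem_univ, true_and, Finset.mem_image, not_exists,
          not_and] at hc
        rw [Finset.mem_coe, hP]
        simp only [Finset.mem_filter, Finset.mem_univ, true_and]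
        constructor
        · intro u hu w hw huw
          rw [Finset.mem_insert] at hu hw
          by_cases hu' : u = v
          · subst hu'
            have hwu : w ≠ u := by rintro rfl; exact hirr _ huw
            rw [Function.update_self, Function.update_of_ne hwu]
            exact fun h => hc w huw h.symm
          · by_cases hw' : w = v
            · subst hw'
              rw [Function.update_self, Function.update_of_ne hu']
              exact fun h => hc u (hsymm _ _ huw) h
            · rw [Function.update_of_ne hu', Function.update_of_ne hw']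
              exact hf1 u (hu.resolve_left hu') w (hw.resolve_left hw') huw
        · intro u hu
          rw [Finset.mem_insert, not_or] at hu
          rw [Function.update_of_ne hu.1]
          exact hf2 u hu.2
      · rintro ⟨f, c⟩ hp ⟨f', c'⟩ hp' h
        rw [Finset.mem_coe, hT, Finset.mem_sigma] at hp hp'
        simp only [hP, Finset.mem_filter, Finset.mem_univ, true_and] at hp hp'
        dsimp only at h
        have hc : c = c' := by
          have := congrFun h v
          simpa using this
        have hff : f = f' := by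
          funext u
          by_cases hu : u = v
          · subst hu
            rw [hp.1.2 u hv, hp'.1.2 u hv]
          · have := congrFun h u
            simpa [Function.update_of_ne hu] using this
        rw [hc, hff]
    have h2 : (P S).card * (M - Δ) ≤ T.card := by
      rw [hT, Finset.card_sigma, ← smul_eq_mul, ← Finset.sum_const]
      refine Finset.sum_le_sum ?_
      intro f _
      have h3 : ((Finset.univ.filter (fun u => adj v u)).image f).card ≤ Δ :=
        Finset.card_image_le.trans (hdeg v)
      have h4 : (Finset.univ.filter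
        (fun c : Fin M => c ∉ (Finset.univ.filter (fun u => adj v u)).image f)) =
          ((Finset.univ.filter (fun u => adj v u)).image f)ᶜ := by
        ext c; simp
      rw [h4, Finset.card_compl, Fintype.card_fin]
      omega
    calc (M - Δ) ^ (S.card + 1) = (M - Δ) ^ S.card * (M - Δ) := pow_succ _ _
      _ ≤ (P S).card * (M - Δ) := Nat.mul_le_mul_right _ ih
      _ ≤ _ := h2.trans h1

/-- Adjacency in the Hamming graph. -/
def Ham {s m : ℕ} (u v : Fin s → Fin m) : Prop := u ≠ v ∧ ∃ i, ∀ j, j ≠ i → u j = v j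

open Classical in
lemma ham_deg {s m : ℕ} (u : Fin s → Fin m) :
    (Finset.univ.filter (fun v => Ham u v)).card ≤ s * m := by
  calc (Finset.univ.filter (fun v => Ham u v)).card
      ≤ ((Finset.univ : Finset (Fin s × Fin m)).image
          (fun p => Function.update u p.1 p.2)).card := by
        refine Finset.card_le_card ?_
        intro v hv
        rw [Finset.mem_filter] at hv
        obtain ⟨-, -, i, hi⟩ := hv
        rw [Finset.mem_image]
        refine ⟨(i, v i), Finset.mem_univ _, ?_⟩
        funext j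
        by_cases hj : j = i
        · subst hj; simp
        · simp only [Function.update_of_ne hj]; exact hi j hj
    _ ≤ (Finset.univ : Finset (Fin s × Fin m)).card := Finset.card_image_le
    _ = s * m := by simp

open Classical in
/-- The number of proper colourings of the Hamming graph. -/
theorem count_ham {s m : ℕ} (hs : 0 < s) (hm : 0 < m) :
    (s * m) ^ (m ^ s) ≤ (Finset.univ.filter
      (fun f : (Fin s → Fin m) → Fin (2 * (s * m)) => ∀ u v, Ham u v → f u ≠ f v)).card := by
  have h := count_colourings (V := Fin s → Fin m) Ham (fun v h => h.1 rfl)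
    (fun u v h => ⟨h.1.symm, h.2.choose, fun j hj => (h.2.choose_spec j hj).symm⟩)
    (s * m) (2 * (s * m)) (by positivity) ham_deg
  have h1 : 2 * (s * m) - s * m = s * m := by omega
  rw [h1, Fintype.card_fun, Fintype.card_fin, Fintype.card_fin] at h
  exact h

end Colour

/-! ### Sparse paving matroids -/

/-- No two members of the family differ by one exchange. -/
def Stable {α : Type*} (𝒟 : Set (Set α)) : Prop :=
  ∀ D ∈ 𝒟, ∀ D' ∈ 𝒟, ∀ b, D \ D' ⊆ {b} → D = D'

section SP

variable {n r : ℕ} {𝒟 : Set (Set (Fin n))}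

lemma sp_exists (hr : 1 ≤ r) (hrn : r < n) (h : Stable 𝒟) :
    ∃ B : Set (Fin n), B.ncard = r ∧ B ∉ 𝒟 := by
  obtain ⟨A, -, hA⟩ := Set.exists_subset_card_eq (s := (Set.univ : Set (Fin n))) (n := r)
    (by rw [Set.ncard_univ, Nat.card_fin]; exact hrn.le)
  by_cases hAD : A ∈ 𝒟
  · obtain ⟨a, ha⟩ : A.Nonempty := (Set.ncard_pos (Set.toFinite A)).1 (by omega)
    obtain ⟨b, hb⟩ : ∃ b, b ∉ A := by
      by_contra hcon
      push Not at hcon
      have : A = Set.univ := Set.eq_univ_of_forall hcon
      rw [this, Set.ncard_univ, Nat.card_fin] at hA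
      omega
    refine ⟨insert b (A \ {a}), ?_, ?_⟩
    · rw [Set.ncard_insert_of_notMem (fun h => hb h.1) (Set.toFinite _),
        Set.ncard_sdiff_singleton_of_mem ha]
      omega
    · intro hcon
      have := h A hAD _ hcon a ?_
      · apply hb
        rw [this]
        exact Set.mem_insert _ _
      · rintro x ⟨hx1, hx2⟩
        by_contra hxa
        exact hx2 (Set.mem_insert_of_mem _ ⟨hx1, hxa⟩)
  · exact ⟨A, hA, hAD⟩

lemma sp_exchange (h : Stable 𝒟) :
    Matroid.ExchangeProperty (fun B : Set (Fin n) => B.ncard = r ∧ B ∉ 𝒟) := by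
  rintro X Y ⟨hX1, hX2⟩ ⟨hY1, hY2⟩ a ⟨haX, haY⟩
  by_contra hcon
  push Not at hcon
  have hcard : ∀ b ∈ Y \ X, (insert b (X \ {a})).ncard = r := by
    intro b hb
    rw [Set.ncard_insert_of_notMem (fun h => hb.2 h.1) (Set.toFinite _),
      Set.ncard_sdiff_singleton_of_mem haX]
    have : 0 < X.ncard := (Set.ncard_pos (Set.toFinite X)).2 ⟨a, haX⟩
    omega
  have hall : ∀ b ∈ Y \ X, insert b (X \ {a}) ∈ 𝒟 := by
    intro b hb
    by_contra h'
    exact h' (hcon b hb (hcard b hb))
  have huniq : ∀ b ∈ Y \ X, ∀ b' ∈ Y \ X, b = b' := by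
    intro b hb b' hb'
    have h1 := h _ (hall b hb) _ (hall b' hb') b ?_
    · have h2 : b ∈ insert b' (X \ {a}) := h1 ▸ Set.mem_insert b _
      rcases h2 with h2 | h2
      · exact h2
      · exact absurd h2.1 hb.2
    · rintro x ⟨hx1, hx2⟩
      rcases hx1 with hx1 | hx1
      · exact hx1
      · exact absurd (Set.mem_insert_of_mem _ hx1) hx2
  have hne : (Y \ X).Nonempty := by
    by_contra hemp
    rw [Set.not_nonempty_iff_eq_empty, Set.sdiff_eq_empty] at hemp
    have : Y = X := Set.eq_of_subset_of_ncard_le hemp (by omega) (Set.toFinite X)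
    rw [this] at haY
    exact haY haX
  obtain ⟨b, hb⟩ := hne
  apply hY2
  have hYeq : Y = insert b (X \ {a}) := by
    refine Set.eq_of_subset_of_ncard_le ?_ ?_ (Set.toFinite _)
    · intro y hy
      by_cases hyX : y ∈ X
      · right
        refine ⟨hyX, ?_⟩
        rintro rfl
        exact haY hy
      · left
        exact huniq y ⟨hy, hyX⟩ b hb
    · rw [hcard b hb, hY1]
  rw [hYeq]
  exact hall b hb

/-- The sparse paving matroid. -/
def SP (hr : 1 ≤ r) (hrn : r < n) (h : Stable 𝒟) : Matroid (Fin n) :=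
  Matroid.ofIsBaseOfFinite (Set.toFinite Set.univ) (fun B : Set (Fin n) => B.ncard = r ∧ B ∉ 𝒟)
    (sp_exists hr hrn h) (sp_exchange h) (fun _ _ => Set.subset_univ _)

lemma SP_isBase (hr : 1 ≤ r) (hrn : r < n) (h : Stable 𝒟) (B : Set (Fin n)) :
    (SP hr hrn h).IsBase B ↔ B.ncard = r ∧ B ∉ 𝒟 := Iff.rfl

lemma SP_eRank (hr : 1 ≤ r) (hrn : r < n) (h : Stable 𝒟) : (SP hr hrn h).eRank = r := by
  obtain ⟨B, hB⟩ := (SP hr hrn h).exists_isBase
  rw [← hB.encard_eq_eRank, ← (Set.toFinite B).cast_ncard_eq, ((SP_isBase hr hrn h B).1 hB).1]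

end SP

/-! ### From colourings to matroids -/

section Fam

variable {n s m M : ℕ}

/-- The set attached to a point of the grid. -/
def Dset (φ : (Fin s × Fin m) ⊕ Fin M → Fin n) (f : (Fin s → Fin m) → Fin M)
    (u : Fin s → Fin m) : Set (Fin n) :=
  insert (φ (Sum.inr (f u))) (Set.range fun i => φ (Sum.inl (i, u i)))

/-- The family attached to a colouring. -/
def Dfam (φ : (Fin s × Fin m) ⊕ Fin M → Fin n) (f : (Fin s → Fin m) → Fin M) :
    Set (Set (Fin n)) := Set.range (Dset φ f)

lemma inl_mem_Dset {φ : (Fin s × Fin m) ⊕ Fin M → Fin n} (hφ : Function.Injective φ)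
    {f : (Fin s → Fin m) → Fin M} {u : Fin s → Fin m} {i : Fin s} {a : Fin m} :
    φ (Sum.inl (i, a)) ∈ Dset φ f u ↔ u i = a := by
  constructor
  · rintro (h | ⟨j, hj⟩)
    · have := hφ h
      simp at this
    · have := hφ hj
      simp only [Sum.inl.injEq, Prod.mk.injEq] at this
      obtain ⟨rfl, h2⟩ := this
      exact h2
  · rintro rfl
    exact Set.mem_insert_of_mem _ ⟨i, rfl⟩

lemma inr_mem_Dset {φ : (Fin s × Fin m) ⊕ Fin M → Fin n} (hφ : Function.Injective φ)
    {f : (Fin s → Fin m) → Fin M} {u : Fin s → Fin m} {c : Fin M} :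
    φ (Sum.inr c) ∈ Dset φ f u ↔ f u = c := by
  constructor
  · rintro (h | ⟨j, hj⟩)
    · have := hφ h
      simp only [Sum.inr.injEq] at this
      exact this.symm
    · have := hφ hj
      simp at this
  · rintro rfl
    exact Set.mem_insert _ _

lemma Dset_ncard {φ : (Fin s × Fin m) ⊕ Fin M → Fin n} (hφ : Function.Injective φ)
    {f : (Fin s → Fin m) → Fin M} {u : Fin s → Fin m} : (Dset φ f u).ncard = s + 1 := by
  rw [Dset, Set.ncard_insert_of_notMem _ (Set.toFinite _)]
  · rw [← Set.image_univ, Set.ncard_image_of_injective, Set.ncard_univ, Nat.card_fin]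
    intro i j hij
    have := hφ hij
    simp only [Sum.inl.injEq, Prod.mk.injEq] at this
    exact this.1
  · rintro ⟨j, hj⟩
    have := hφ hj
    simp at this

lemma Dfam_stable {φ : (Fin s × Fin m) ⊕ Fin M → Fin n} (hφ : Function.Injective φ)
    {f : (Fin s → Fin m) → Fin M} (hf : ∀ u v, Ham u v → f u ≠ f v) : Stable (Dfam φ f) := by
  rintro _ ⟨u, rfl⟩ _ ⟨v, rfl⟩ b hb
  by_cases huv : u = v
  · rw [huv]
  exfalso
  obtain ⟨i, hi⟩ := Function.ne_iff.1 huv
  have h1 : ∀ j, u j ≠ v j → φ (Sum.inl (j, u j)) = b := by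
    intro j hj
    refine hb ⟨(inl_mem_Dset hφ).2 rfl, fun h => hj ?_⟩
    exact ((inl_mem_Dset hφ).1 h).symm
  have hH : Ham u v := by
    refine ⟨huv, i, ?_⟩
    intro j hj
    by_contra hne
    have := hφ ((h1 j hne).trans (h1 i hi).symm)
    simp only [Sum.inl.injEq, Prod.mk.injEq] at this
    exact hj this.1
  have h2 : φ (Sum.inr (f u)) = b := by
    refine hb ⟨(inr_mem_Dset hφ).2 rfl, fun h => hf u v hH ?_⟩
    exact ((inr_mem_Dset hφ).1 h).symm
  have := hφ (h2.trans (h1 i hi).symm)
  simp at this

lemma Dfam_injective {φ : (Fin s × Fin m) ⊕ Fin M → Fin n} (hφ : Function.Injective φ) :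
    Function.Injective (Dfam φ) := by
  intro f f' h
  funext u
  have h1 : Dset φ f u ∈ Dfam φ f' := h ▸ ⟨u, rfl⟩
  obtain ⟨v, hv⟩ := h1
  have h2 : v = u := by
    funext i
    have : φ (Sum.inl (i, u i)) ∈ Dset φ f' v := by
      rw [hv]; exact (inl_mem_Dset hφ).2 rfl
    exact (inl_mem_Dset hφ).1 this
  subst h2
  have : φ (Sum.inr (f v)) ∈ Dset φ f' v := by
    rw [hv]; exact (inr_mem_Dset hφ).2 rfl
  exact ((inr_mem_Dset hφ).1 this).symm

end Fam

/-- Lower bound for the number of matroids of rank `s + 1`. -/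
theorem card_rankMatroid_ge {n s m : ℕ} (hs : 0 < s) (hm : 0 < m) (hn : 3 * (s * m) ≤ n)
    (hsn : s + 1 < n) [Finite (RankMatroid n (s + 1))] :
    (s * m) ^ (m ^ s) ≤ Nat.card (RankMatroid n (s + 1)) := by
  classical
  obtain ⟨φ⟩ : Nonempty ((Fin s × Fin m) ⊕ Fin (2 * (s * m)) ↪ Fin n) := by
    refine Function.Embedding.nonempty_of_card_le ?_
    simp only [Fintype.card_sum, Fintype.card_prod, Fintype.card_fin]
    omega
  have hφ := φ.injective
  refine (count_ham hs hm).trans ?_
  set C := {f : (Fin s → Fin m) → Fin (2 * (s * m)) // ∀ u v, Ham u v → f u ≠ f v} with hC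
  have h1 : (Finset.univ.filter
      (fun f : (Fin s → Fin m) → Fin (2 * (s * m)) => ∀ u v, Ham u v → f u ≠ f v)).card =
      Nat.card C := by
    rw [hC, Nat.card_eq_fintype_card, Fintype.card_subtype]
  rw [h1]
  refine Nat.card_le_card_of_injective (fun f : C =>
    (⟨SP (r := s + 1) (by omega) hsn (Dfam_stable hφ f.2), rfl, SP_eRank _ _ _⟩ :
      RankMatroid n (s + 1))) ?_
  intro f f' h
  have h2 : SP (r := s + 1) (by omega) hsn (Dfam_stable hφ f.2) =
      SP (r := s + 1) (by omega) hsn (Dfam_stable hφ f'.2) := congrArg Subtype.val h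
  apply Subtype.ext
  apply Dfam_injective hφ
  have key : ∀ g g' : C, SP (r := s + 1) (by omega) hsn (Dfam_stable hφ g.2) =
      SP (r := s + 1) (by omega) hsn (Dfam_stable hφ g'.2) →
      Dfam φ g.1 ⊆ Dfam φ g'.1 := by
    rintro g g' hgg _ ⟨u, rfl⟩
    by_contra hcon
    have h3 : (SP (r := s + 1) (by omega) hsn (Dfam_stable hφ g'.2)).IsBase (Dset φ g.1 u) :=
      (SP_isBase _ _ _ _).2 ⟨Dset_ncard hφ, hcon⟩
    rw [← hgg, SP_isBase] at h3
    exact h3.2 ⟨u, rfl⟩
  exact Set.Subset.antisymm (key f f' h2) (key f' f h2.symm)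

end Pool.Agent.Work.MP_f3d170_co_helper60
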