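import Mathlib

set_option autoImplicit false

open Set Matroid

namespace Pool.Agent.Work.MP_f3d170_co_helper60

variable {α : Type*} [Finite α]

/-- The rank of a set, as a natural number. -/
noncomputable def rk (M : Matroid α) (X : Set α) : ℕ := (M.eRk X).toNat

lemma eRk_ne_top' (M : Matroid α) (X : Set α) : M.eRk X ≠ ⊤ := by
  have h := M.eRk_le_encard X
  intro hh
  rw [hh, top_le_iff, Set.encard_eq_top_iff] at h
  exact h (Set.toFinite X)

lemma coe_rk (M : Matroid α) (X : Set α) : (rk M X : ℕ∞) = M.eRk X :=
  ENat.natCast_toNat (eRk_ne_top' M X)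

lemma rk_le_iff {M N : Matroid α} {X Y : Set α} : rk M X ≤ rk N Y ↔ M.eRk X ≤ N.eRk Y := by
  rw [← coe_rk, ← coe_rk, Nat.cast_le]

lemma rk_eq_iff {M N : Matroid α} {X Y : Set α} : rk M X = rk N Y ↔ M.eRk X = N.eRk Y := by
  rw [← coe_rk, ← coe_rk, Nat.cast_inj]

lemma rk_le_ncard (M : Matroid α) (X : Set α) : rk M X ≤ X.ncard := by
  have h := M.eRk_le_encard X
  rw [← coe_rk, ← (Set.toFinite X).cast_ncard_eq, Nat.cast_le] at h
  exact h

lemma rk_mono (M : Matroid α) {X Y : Set α} (h : X ⊆ Y) : rk M X ≤ rk M Y :=
  rk_le_iff.2 (M.eRk_mono h)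

lemma rk_closure (M : Matroid α) (X : Set α) : rk M (M.closure X) = rk M X :=
  rk_eq_iff.2 (M.eRk_closure_eq X)

lemma rk_le_of_subset_closure {M : Matroid α} {X Y : Set α} (h : X ⊆ M.closure Y) :
    rk M X ≤ rk M Y := by
  rw [← rk_closure M Y]; exact rk_mono M h

lemma indep_iff_rk {M : Matroid α} {X : Set α} : M.Indep X ↔ rk M X = X.ncard := by
  rw [indep_iff_eRk_eq_encard_of_finite (Set.toFinite X), ← coe_rk,
    ← (Set.toFinite X).cast_ncard_eq, Nat.cast_inj]

lemma closure_eq_of_rk {M : Matroid α} {X Y : Set α} (h : X ⊆ Y) (hr : rk M Y ≤ rk M X) :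
    M.closure X = M.closure Y :=
  IsRkFinite.closure_eq_closure_of_subset_of_eRk_ge_eRk
    (eRk_ne_top_iff.1 (eRk_ne_top' M X)) h (rk_le_iff.1 hr)

lemma spanning_iff_rk {M : Matroid α} {X : Set α} (hE : M.E = Set.univ) :
    M.Spanning X ↔ rk M M.E ≤ rk M X := by
  have : M.RankFinite := by
    rw [← eRank_ne_top_iff, ← M.eRk_ground]; exact eRk_ne_top' M _
  rw [spanning_iff_eRk_le (by rw [hE]; exact Set.subset_univ _), rk_le_iff, M.eRk_ground]

/-- `A` is `K`-regular in `M`: a flat that does not contain `A` contains at most a `1/K` fraction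
of `A`. -/
def Regular (M : Matroid α) (K : ℕ) (A : Set α) : Prop :=
  ∀ F : Set α, M.IsFlat F → ¬ A ⊆ F → K * (A ∩ F).ncard ≤ A.ncard

lemma regular_empty (M : Matroid α) (K : ℕ) : Regular M K ∅ := by
  intro F _ h
  exact absurd (Set.empty_subset F) h

/-- Every set contains a large regular subset. -/
lemma exists_regular {M : Matroid α} (hE : M.E = Set.univ) {K : ℕ} (hK : 1 ≤ K) :
    ∀ (k : ℕ) (A : Set α), rk M A ≤ k →
      ∃ A' ⊆ A, Regular M K A' ∧ A.ncard ≤ K ^ k * A'.ncard := by
  intro k
  induction k with
  | zero =>
    intro A hA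
    refine ⟨A, subset_rfl, ?_, by simp⟩
    intro F hF hAF
    exfalso
    apply hAF
    have h0 : rk M A ≤ rk M (∅ : Set α) := by omega
    have := closure_eq_of_rk (Set.empty_subset A) h0
    calc A ⊆ M.closure A := M.subset_closure A (by rw [hE]; exact Set.subset_univ _)
      _ = M.closure ∅ := this.symm
      _ ⊆ M.closure F := M.closure_subset_closure (Set.empty_subset F)
      _ = F := hF.closure
  | succ k ih =>
    intro A hA
    by_cases hreg : Regular M K A
    · refine ⟨A, subset_rfl, hreg, ?_⟩
      exact Nat.le_mul_of_pos_left _ (Nat.pow_pos hK)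
    · unfold Regular at hreg
      push Not at hreg
      obtain ⟨F, hF, hAF, hlt⟩ := hreg
      have hrk : rk M (A ∩ F) ≤ k := by
        by_contra hcon
        push Not at hcon
        have h1 : rk M A ≤ rk M (A ∩ F) := by omega
        have h2 := closure_eq_of_rk (Set.inter_subset_left (s := A) (t := F)) h1
        apply hAF
        calc A ⊆ M.closure A := M.subset_closure A (by rw [hE]; exact Set.subset_univ _)
          _ = M.closure (A ∩ F) := h2.symm
          _ ⊆ M.closure F := M.closure_subset_closure Set.inter_subset_right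
          _ = F := hF.closure
      obtain ⟨A', hA', hreg', hcard⟩ := ih (A ∩ F) hrk
      refine ⟨A', hA'.trans Set.inter_subset_left, hreg', ?_⟩
      calc A.ncard ≤ K * (A ∩ F).ncard := hlt.le
        _ ≤ K * (K ^ k * A'.ncard) := Nat.mul_le_mul_left _ hcard
        _ = K ^ (k + 1) * A'.ncard := by ring

/-- The classes of a partial assignment. -/
def cls {α ι : Type*} (g : α → Option ι) (i : ι) : Set α := {x | g x = some i}

/-- The rest. -/
def rest {α ι : Type*} (g : α → Option ι) : Set α := {x | g x = none}

/-- A partition of the ground set in at most `Q` large regular sets and a small rest. -/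
def GoodPart (M : Matroid α) (K Q n : ℕ) (g : α → Option (Fin Q)) : Prop :=
  ∀ i, Regular M K (cls g i) ∧ ((cls g i).Nonempty → n ≤ Q * (cls g i).ncard)

lemma exists_goodPart {M : Matroid α} (hE : M.E = Set.univ) {K D r n : ℕ} (hK : 1 ≤ K)
    (hD : 1 ≤ D) (hr : rk M Set.univ ≤ r) (hn : Nat.card α = n) (hnpos : 0 < n) :
    ∃ g : α → Option (Fin (K ^ r * D)), GoodPart M K (K ^ r * D) n g ∧
      D * (rest g).ncard ≤ n := by
  classical
  set Q := K ^ r * D with hQ
  have hQpos : 0 < Q := Nat.mul_pos (Nat.pow_pos hK) hD
  suffices H : ∀ (k : ℕ) (g : α → Option (Fin Q)), GoodPart M K Q n g → (rest g).ncard ≤ k →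
      ∃ g : α → Option (Fin Q), GoodPart M K Q n g ∧ D * (rest g).ncard ≤ n by
    refine H _ (fun _ => none) ?_ le_rfl
    intro i
    have : cls (fun _ : α => (none : Option (Fin Q))) i = ∅ := by
      ext x; simp [cls]
    rw [this]
    exact ⟨regular_empty M K, fun h => absurd h (by simp)⟩
  intro k
  induction k with
  | zero =>
    intro g hg hk
    refine ⟨g, hg, ?_⟩
    have : (rest g).ncard = 0 := by omega
    rw [this]; omega
  | succ k ih =>
    intro g hg hk
    by_cases hsmall : D * (rest g).ncard ≤ n
    · exact ⟨g, hg, hsmall⟩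
    push Not at hsmall
    -- an empty class
    have hempty : ∃ i, cls g i = ∅ := by
      by_contra hcon
      push Not at hcon
      have hdisj : ∑ i : Fin Q, (cls g i).ncard + (rest g).ncard ≤ n := by
        have hfin : Finite α := inferInstance
        have := Fintype.ofFinite α
        have h1 : ∀ i : Fin Q, (cls g i).ncard = (Finset.univ.filter fun x => g x = some i).card := by
          intro i
          rw [← Set.ncard_coe_finset]; congr 1; ext x; simp [cls]
        have h2 : (rest g).ncard = (Finset.univ.filter fun x => g x = none).card := by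
          rw [← Set.ncard_coe_finset]; congr 1; ext x; simp [rest]
        have h3 : (Finset.univ : Finset α).card =
            ∑ o : Option (Fin Q), (Finset.univ.filter fun x => g x = o).card :=
          Finset.card_eq_sum_card_fiberwise (fun x _ => Finset.mem_univ _)
        rw [Fintype.sum_option] at h3
        have h4 : (Finset.univ : Finset α).card = n := by
          rw [Finset.card_univ, ← Nat.card_eq_fintype_card, hn]
        simp only [h1, h2]
        omega
      have h5 : ∑ i : Fin Q, n ≤ ∑ i : Fin Q, Q * (cls g i).ncard :=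
        Finset.sum_le_sum fun i _ => (hg i).2 (hcon i)
      rw [Finset.sum_const, Finset.card_univ, Fintype.card_fin, smul_eq_mul, ← Finset.mul_sum] at h5
      have h6 := Nat.le_of_mul_le_mul_left h5 hQpos
      have h7 : (rest g).ncard = 0 := by omega
      rw [h7] at hsmall
      omega
    obtain ⟨i₀, hi₀⟩ := hempty
    obtain ⟨A', hA', hreg, hcard⟩ := exists_regular hE hK r (rest g)
      ((rk_mono M (Set.subset_univ _)).trans hr)
    have hA'card : n ≤ Q * A'.ncard := by
      calc n ≤ D * (rest g).ncard := hsmall.le
        _ ≤ D * (K ^ r * A'.ncard) := Nat.mul_le_mul_left _ hcard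
        _ = Q * A'.ncard := by rw [hQ]; ring
    have hA'pos : 0 < A'.ncard := by
      rcases Nat.eq_zero_or_pos A'.ncard with h | h
      · rw [h] at hA'card; omega
      · exact h
    refine ih (fun x => if x ∈ A' then some i₀ else g x) ?_ ?_
    · intro i
      by_cases hi : i = i₀
      · subst hi
        have : cls (fun x => if x ∈ A' then some i else g x) i = A' := by
          ext x
          simp only [cls, Set.mem_ofPred_eq]
          constructor
          · intro h
            by_contra hx
            rw [if_neg hx] at h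
            have : x ∈ cls g i := h
            rw [hi₀] at this
            exact this
          · intro h; rw [if_pos h]
        rw [this]
        exact ⟨hreg, fun _ => hA'card⟩
      · have : cls (fun x => if x ∈ A' then some i₀ else g x) i = cls g i := by
          ext x
          simp only [cls, Set.mem_ofPred_eq]
          by_cases hx : x ∈ A'
          · rw [if_pos hx]
            have h1 : g x = none := hA' hx
            rw [h1]
            simp [Ne.symm hi]
          · rw [if_neg hx]
        rw [this]
        exact hg i
    · have : rest (fun x => if x ∈ A' then some i₀ else g x) = rest g \ A' := by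
        ext x
        simp only [rest, Set.mem_ofPred_eq, Set.mem_sdiff]
        by_cases hx : x ∈ A'
        · simp [hx]
        · simp [hx]
      rw [this, Set.ncard_sdiff hA' (Set.toFinite _)]
      omega

end Pool.Agent.Work.MP_f3d170_co_helper60
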