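import Mathlib
import Pool.Agent.Work.MP_f3d170_co_helper60.Regular

set_option autoImplicit false

open Set Matroid

namespace Pool.Agent.Work.MP_f3d170_co_helper60

instance finiteMatroid (n : ℕ) : Finite (Matroid (Fin n)) := by
  have h := Matroid.finite_setOfPred_matroid (Set.toFinite (Set.univ : Set (Fin n)))
  have h2 : {M : Matroid (Fin n) | M.E ⊆ Set.univ} = Set.univ := by
    ext M; simp
  rw [h2] at h
  exact Set.finite_univ_iff.1 h

/-- The matroids on subsets of `Fin n` with rank at most `ρ`. -/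
def LowRank (n ρ : ℕ) : Type := {M : Matroid (Fin n) // M.eRank ≤ ρ}

instance (n ρ : ℕ) : Finite (LowRank n ρ) := Subtype.finite

instance (n ρ : ℕ) : Nonempty (LowRank n ρ) := ⟨⟨emptyOn (Fin n), by simp⟩⟩

lemma eRank_contract {α : Type*} [Finite α] {M : Matroid α} {e : α} (he : M.IsNonloop e) :
    (M ／ {e}).eRank + 1 = M.eRank := by
  obtain ⟨B, hB⟩ := (M ／ {e}).exists_isBase
  have h1 := hB
  rw [he.indep.contract_isBase_iff] at h1
  obtain ⟨h1, h2⟩ := h1
  rw [← hB.encard_eq_eRank, ← h1.encard_eq_eRank, Set.encard_union_eq h2, Set.encard_singleton]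

lemma eRank_contract_le {α : Type*} [Finite α] {M : Matroid α} {e : α} (he : M.IsNonloop e)
    {ρ : ℕ} (hρ : M.eRank ≤ (ρ + 1 : ℕ)) : (M ／ {e}).eRank ≤ ρ := by
  rw [← eRank_contract he, Nat.cast_add, Nat.cast_one] at hρ
  exact (WithTop.add_le_add_iff_right ENat.one_ne_top).1 hρ

lemma card_set_fin (n : ℕ) : Nat.card (Set (Fin n)) = 2 ^ n := by
  rw [Nat.card_eq_fintype_card, Fintype.card_set, Fintype.card_fin]

lemma card_lowRank_succ (n ρ : ℕ) :
    Nat.card (LowRank n (ρ + 1)) ≤ 2 ^ n * (2 ^ n * Nat.card (LowRank n ρ) ^ n) := by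
  classical
  have hex : ∀ (M : LowRank n (ρ + 1)) (e : Fin n), ∃ N : LowRank n ρ,
      M.1.IsNonloop e → N.1 = M.1 ／ {e} := by
    intro M e
    by_cases he : M.1.IsNonloop e
    · exact ⟨⟨M.1 ／ {e}, eRank_contract_le he M.2⟩, fun _ => rfl⟩
    · exact ⟨Classical.arbitrary _, fun h => absurd h he⟩
  choose con hcon using hex
  have hinj : Function.Injective (fun M : LowRank n (ρ + 1) =>
      ((M.1.E, ({e | M.1.IsNonloop e}, con M)) :
        Set (Fin n) × (Set (Fin n) × (Fin n → LowRank n ρ)))) := by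
    intro M M' h
    simp only [Prod.mk.injEq] at h
    obtain ⟨h1, h2, h3⟩ := h
    have key : ∀ (N N' : LowRank n (ρ + 1)), {e | N.1.IsNonloop e} = {e | N'.1.IsNonloop e} →
        con N = con N' → ∀ I, N.1.Indep I → N'.1.Indep I := by
      intro N N' hnl hc I hI
      rcases I.eq_empty_or_nonempty with rfl | ⟨e, heI⟩
      · exact N'.1.empty_indep
      · have hnle : N.1.IsNonloop e := hI.isNonloop_of_mem heI
        have hnle' : N'.1.IsNonloop e := by
          have : e ∈ {e | N.1.IsNonloop e} := hnle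
          rw [hnl] at this; exact this
        have h4 : N.1 ／ {e} = N'.1 ／ {e} := by
          rw [← hcon N e hnle, ← hcon N' e hnle', hc]
        have h5 : (N.1 ／ {e}).Indep (I \ {e}) := by
          rw [hnle.indep.contract_indep_iff]
          refine ⟨Set.disjoint_sdiff_left, ?_⟩
          rwa [Set.sdiff_union_self, Set.union_eq_self_of_subset_right
            (Set.singleton_subset_iff.2 heI)]
        rw [h4, hnle'.indep.contract_indep_iff] at h5
        have h6 := h5.2
        rwa [Set.sdiff_union_self, Set.union_eq_self_of_subset_right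
          (Set.singleton_subset_iff.2 heI)] at h6
    apply Subtype.ext
    refine Matroid.ext_indep h1 ?_
    intro I _
    exact ⟨key M M' h2 h3 I, key M' M h2.symm h3.symm I⟩
  have h := Nat.card_le_card_of_injective _ hinj
  rw [Nat.card_prod, Nat.card_prod, Nat.card_fun, card_set_fin, Nat.card_fin] at h
  exact h

lemma card_lowRank_two (n : ℕ) :
    Nat.card (LowRank n 2) ≤ 2 ^ n * (2 ^ n * n ^ n) := by
  classical
  rcases Nat.eq_zero_or_pos n with rfl | hn
  · have : Subsingleton (LowRank 0 2) := by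
      constructor
      rintro ⟨M, hM⟩ ⟨M', hM'⟩
      apply Subtype.ext
      refine Matroid.ext_indep (Subsingleton.elim _ _) ?_
      intro I _
      have : I = ∅ := Subsingleton.elim _ _
      subst this
      simp
    have h2 : Nat.card (LowRank 0 2) ≤ 1 := Finite.card_le_one_iff_subsingleton.2 this
    simp
  have : Nonempty (Fin n) := ⟨⟨0, hn⟩⟩
  have hpick : ∀ S : Set (Fin n), ∃ x : Fin n, S.Nonempty → x ∈ S := by
    intro S
    by_cases hS : S.Nonempty
    · obtain ⟨x, hx⟩ := hS; exact ⟨x, fun _ => hx⟩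
    · exact ⟨⟨0, hn⟩, fun h => absurd h hS⟩
  choose pick hpick using hpick
  set c : LowRank n 2 → Fin n → Fin n := fun M e =>
    pick {f | M.1.IsNonloop f ∧ M.1.closure {f} = M.1.closure {e}} with hc
  have hcmem : ∀ (M : LowRank n 2) (e : Fin n), M.1.IsNonloop e →
      M.1.closure {c M e} = M.1.closure {e} := by
    intro M e he
    have := hpick {f | M.1.IsNonloop f ∧ M.1.closure {f} = M.1.closure {e}} ⟨e, he, rfl⟩
    exact this.2
  have hinj : Function.Injective (fun M : LowRank n 2 =>
      ((M.1.E, ({e | M.1.IsNonloop e}, c M)) :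
        Set (Fin n) × (Set (Fin n) × (Fin n → Fin n)))) := by
    intro M M' h
    simp only [Prod.mk.injEq] at h
    obtain ⟨h1, h2, h3⟩ := h
    have key : ∀ (N N' : LowRank n 2), {e | N.1.IsNonloop e} = {e | N'.1.IsNonloop e} →
        c N = c N' → ∀ I, N.1.Indep I → N'.1.Indep I := by
      intro N N' hnl hc' I hI
      have hcard : I.ncard ≤ 2 := by
        have h4 := hI.encard_le_eRank.trans N.2
        rw [← (Set.toFinite I).cast_ncard_eq, Nat.cast_le] at h4
        exact h4
      have hnl' : ∀ e, N.1.IsNonloop e → N'.1.IsNonloop e := by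
        intro e he
        have : e ∈ {e | N.1.IsNonloop e} := he
        rw [hnl] at this; exact this
      interval_cases hI2 : I.ncard
      · rw [Set.ncard_eq_zero] at hI2
        rw [hI2]; exact N'.1.empty_indep
      · rw [Set.ncard_eq_one] at hI2
        obtain ⟨e, rfl⟩ := hI2
        rw [indep_singleton] at hI ⊢
        exact hnl' e hI
      · rw [Set.ncard_eq_two] at hI2
        obtain ⟨e, f, hef, rfl⟩ := hI2
        have he := hI.isNonloop_of_mem (Set.mem_insert e {f})
        have hf := hI.isNonloop_of_mem (Set.mem_insert_of_mem e (Set.mem_singleton f))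
        by_contra hcon
        have h5 := (hnl' e he).closure_eq_closure_iff_eq_or_dep (hnl' f hf)
        have h6 := h5.2 (Or.inr hcon)
        have h7 : c N' e = c N' f := by
          simp only [hc, h6]
        have h8 : c N e = c N f := by rw [hc', h7]
        have h9 : N.1.closure {e} = N.1.closure {f} := by
          rw [← hcmem N e he, ← hcmem N f hf, h8]
        rcases (he.closure_eq_closure_iff_eq_or_dep hf).1 h9 with h10 | h10
        · exact hef h10
        · exact h10 hI
    apply Subtype.ext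
    refine Matroid.ext_indep h1 ?_
    intro I _
    exact ⟨key M M' h2 h3 I, key M' M h2.symm h3.symm I⟩
  have h := Nat.card_le_card_of_injective _ hinj
  rw [Nat.card_prod, Nat.card_prod, Nat.card_fun, card_set_fin, Nat.card_fin] at h
  exact h

/-- The number of matroids of small rank. -/
lemma card_lowRank_le {n : ℕ} (hn : 1 ≤ n) (ρ : ℕ) :
    Nat.card (LowRank n (ρ + 2)) ≤ (4 * n) ^ ((ρ + 1) * n ^ (ρ + 1)) := by
  induction ρ with
  | zero =>
    refine (card_lowRank_two n).trans ?_
    rw [← mul_assoc, ← mul_pow, ← mul_pow]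
    simp
  | succ ρ ih =>
    refine (card_lowRank_succ n (ρ + 2)).trans ?_
    have h4 : 4 ^ n ≤ (4 * n) ^ (n ^ (ρ + 2)) := by
      calc 4 ^ n ≤ (4 * n) ^ n := Nat.pow_le_pow_left (by omega) n
        _ ≤ (4 * n) ^ (n ^ (ρ + 2)) := by
          refine Nat.pow_le_pow_right (by omega) ?_
          exact Nat.le_self_pow (by omega) n
    calc 2 ^ n * (2 ^ n * Nat.card (LowRank n (ρ + 2)) ^ n)
        = 4 ^ n * Nat.card (LowRank n (ρ + 2)) ^ n := by
          rw [← mul_assoc, ← mul_pow]; norm_num
      _ ≤ (4 * n) ^ (n ^ (ρ + 2)) * ((4 * n) ^ ((ρ + 1) * n ^ (ρ + 1))) ^ n :=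
          Nat.mul_le_mul h4 (Nat.pow_le_pow_left ih n)
      _ = (4 * n) ^ ((ρ + 1 + 1) * n ^ (ρ + 1 + 1)) := by
          rw [← pow_mul, ← pow_add]
          congr 1
          ring

end Pool.Agent.Work.MP_f3d170_co_helper60
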