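import Mathlib
import Pool.Agent.Work.MP_f3d170_co_helper60.Regular

set_option autoImplicit false

open Set Matroid

namespace Pool.Agent.Work.MP_f3d170_co_helper60

variable {α ι : Type*} [Finite α]

set_option linter.unusedSectionVars false

/-- The union of the classes with index in `I`. -/
def un {α ι : Type*} (E : ι → Set α) (I : Set ι) : Set α := ⋃ i ∈ I, E i

lemma un_subset {α ι : Type*} {E : ι → Set α} {I : Set ι} {S : Set α} (h : ∀ i ∈ I, E i ⊆ S) :
    un E I ⊆ S := Set.iUnion₂_subset h

lemma subset_un {α ι : Type*} {E : ι → Set α} {I : Set ι} {i : ι} (h : i ∈ I) :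
    E i ⊆ un E I := Set.subset_biUnion_of_mem h

/-- The type `τ` of an `(r+1)`-tuple is such that generic tuples of this type are circuits. -/
def SC (M : Matroid α) (r : ℕ) (E : ι → Set α) (τ : Fin (r + 1) → ι) : Prop :=
  ∀ I : Set ι, rk M (un E I) < r → (τ ⁻¹' I).ncard ≤ rk M (un E I)

/-- No accidental dependence. -/
def GoodTuple (M : Matroid α) (r : ℕ) (E : ι → Set α) (τ : Fin (r + 1) → ι)
    (x : Fin (r + 1) → α) : Prop :=
  ∀ (J : Set (Fin (r + 1))) (j : Fin (r + 1)), j ∉ J → x j ∈ M.closure (x '' J) →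
    E (τ j) ⊆ M.closure (x '' J)

lemma good_rk {M : Matroid α} (hE : M.E = Set.univ) {r : ℕ} {E : ι → Set α}
    {τ : Fin (r + 1) → ι} (hSC : SC M r E τ) {x : Fin (r + 1) → α}
    (hx : GoodTuple M r E τ x) :
    ∀ (k : ℕ) (J : Set (Fin (r + 1))), J.ncard = k → k ≤ r → rk M (x '' J) = k := by
  intro k
  induction k with
  | zero =>
    intro J hJ _
    have h1 := rk_le_ncard M (x '' J)
    have h2 := Set.ncard_image_le (f := x) (Set.toFinite J)
    omega
  | succ k ih =>
    intro J hJ hk
    have h1 := rk_le_ncard M (x '' J)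
    have h2 := Set.ncard_image_le (f := x) (Set.toFinite J)
    by_contra hne
    have hle : rk M (x '' J) ≤ k := by omega
    have hcl : ∀ j ∈ J, M.closure (x '' (J \ {j})) = M.closure (x '' J) := by
      intro j hj
      refine closure_eq_of_rk (Set.image_mono Set.sdiff_subset) ?_
      have h3 : (J \ {j}).ncard = k := by
        rw [Set.ncard_sdiff_singleton_of_mem hj]; omega
      rw [ih _ h3 (by omega)]
      exact hle
    have hsub : ∀ j ∈ J, E (τ j) ⊆ M.closure (x '' J) := by
      intro j hj
      rw [← hcl j hj]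
      refine hx (J \ {j}) j (fun h => h.2 rfl) ?_
      rw [hcl j hj]
      exact M.subset_closure _ (by rw [hE]; exact Set.subset_univ _) (Set.mem_image_of_mem x hj)
    have hun : un E (τ '' J) ⊆ M.closure (x '' J) := by
      refine un_subset ?_
      rintro _ ⟨j, hj, rfl⟩
      exact hsub j hj
    have h4 := rk_le_of_subset_closure hun
    have h5 := hSC (τ '' J) (by omega)
    have h6 : J.ncard ≤ (τ ⁻¹' (τ '' J)).ncard :=
      Set.ncard_le_ncard (Set.subset_preimage_image τ J) (Set.toFinite _)
    omega

lemma good_circuit {M : Matroid α} (hE : M.E = Set.univ) {r : ℕ} (hr2 : 2 ≤ r)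
    (hr : rk M Set.univ = r) {E : ι → Set α}
    {τ : Fin (r + 1) → ι} (hSC : SC M r E τ) {x : Fin (r + 1) → α}
    (hx : GoodTuple M r E τ x) : M.IsCircuit (Set.range x) := by
  have hrk := good_rk hE hSC hx
  have hinj : Function.Injective x := by
    intro i j hij
    by_contra hne
    have h1 : ({i, j} : Set (Fin (r + 1))).ncard = 2 := Set.ncard_pair hne
    have h2 := hrk 2 {i, j} h1 hr2
    rw [Set.image_pair, hij, Set.pair_eq_singleton] at h2
    have h3 := rk_le_ncard M {x j}
    rw [Set.ncard_singleton] at h3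
    omega
  have hcard : ∀ J : Set (Fin (r + 1)), (x '' J).ncard = J.ncard :=
    fun J => Set.ncard_image_of_injective J hinj
  rw [isCircuit_iff_dep_forall_sdiff_singleton_indep]
  constructor
  · rw [← not_indep_iff (by rw [hE]; exact Set.subset_univ _), indep_iff_rk, ← Set.image_univ,
      hcard, Set.ncard_univ, Nat.card_fin]
    have := rk_mono M (Set.subset_univ (x '' Set.univ))
    omega
  · rintro _ ⟨j, rfl⟩
    have : Set.range x \ {x j} = x '' (Set.univ \ {j}) := by
      rw [Set.image_sdiff hinj, Set.image_univ, Set.image_singleton]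
    rw [this, indep_iff_rk, hcard]
    have h3 : (Set.univ \ {j} : Set (Fin (r + 1))).ncard = r := by
      rw [Set.ncard_sdiff_singleton_of_mem (Set.mem_univ j), Set.ncard_univ, Nat.card_fin]; omega
    rw [hrk _ _ rfl (by omega)]

open Classical in
/-- The count of the tuples with one given accidental dependence. -/
lemma bad_count [Fintype α] {M : Matroid α} {r K : ℕ} {E : ι → Set α}
    {τ : Fin (r + 1) → ι} (hreg : ∀ i, Regular M K (E i)) (J : Set (Fin (r + 1)))
    (j : Fin (r + 1)) (hj : j ∉ J) :
    K * ((Fintype.piFinset (fun j => (E (τ j)).toFinset)).filter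
      (fun x => x j ∈ M.closure (x '' J) ∧ ¬ E (τ j) ⊆ M.closure (x '' J))).card
      ≤ (Fintype.piFinset (fun j => (E (τ j)).toFinset)).card := by
  set 𝒳 := Fintype.piFinset (fun j => (E (τ j)).toFinset) with h𝒳
  set Bd := 𝒳.filter (fun x => x j ∈ M.closure (x '' J) ∧ ¬ E (τ j) ⊆ M.closure (x '' J)) with hBd
  set Ej := (E (τ j)).toFinset with hEj
  rcases Ej.eq_empty_or_nonempty with hemp | hne
  · have : 𝒳 = ∅ := by
      rw [h𝒳, Finset.eq_empty_iff_forall_notMem]
      intro x hx
      rw [Fintype.mem_piFinset] at hx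
      have := hx j
      rw [← hEj, hemp] at this
      simp at this
    rw [hBd, this]; simp
  · have hpos : 0 < Ej.card := hne.card_pos
    refine Nat.le_of_mul_le_mul_right (c := Ej.card) ?_ hpos
    set S := 𝒳.sigma (fun z => Ej.filter (fun w => w ∈ M.closure (z '' J) ∧
      ¬ E (τ j) ⊆ M.closure (z '' J))) with hS
    have himg : ∀ (x : Fin (r + 1) → α) (y : α), Function.update x j y '' J = x '' J := by
      intro x y
      refine Set.image_congr ?_
      intro i hi
      rw [Function.update_of_ne]
      rintro rfl; exact hj hi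
    have h1 : (Bd ×ˢ Ej).card ≤ S.card := by
      refine Finset.card_le_card_of_injOn
        (fun p => (⟨Function.update p.1 j p.2, p.1 j⟩ : (_ : Fin (r + 1) → α) × α)) ?_ ?_
      · rintro ⟨x, y⟩ hp
        rw [Finset.mem_coe, Finset.mem_product] at hp
        obtain ⟨hx, hy⟩ := hp
        rw [hBd, Finset.mem_filter] at hx
        obtain ⟨hx, hx1, hx2⟩ := hx
        rw [h𝒳, Fintype.mem_piFinset] at hx
        rw [hS, Finset.mem_coe, Finset.mem_sigma]
        constructor
        · rw [h𝒳, Fintype.mem_piFinset]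
          intro i
          by_cases hi : i = j
          · subst hi; simp only [Function.update_self]; exact hy
          · simp only [Function.update_of_ne hi]; exact hx i
        · rw [Finset.mem_filter]
          simp only [himg]
          exact ⟨hx j, hx1, hx2⟩
      · rintro ⟨x, y⟩ _ ⟨x', y'⟩ _ hxy
        simp only [Sigma.mk.injEq, heq_eq_eq] at hxy
        obtain ⟨h1, h2⟩ := hxy
        have hy : y = y' := by
          have := congrFun h1 j
          simpa using this
        have hx : x = x' := by
          funext i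
          by_cases hi : i = j
          · subst hi; exact h2
          · have := congrFun h1 i
            simpa [Function.update_of_ne hi] using this
        rw [hx, hy]
    have h2 : K * S.card ≤ 𝒳.card * Ej.card := by
      rw [hS, Finset.card_sigma, Finset.mul_sum]
      calc ∑ z ∈ 𝒳, K * (Ej.filter (fun w => w ∈ M.closure (z '' J) ∧
            ¬ E (τ j) ⊆ M.closure (z '' J))).card ≤ ∑ z ∈ 𝒳, Ej.card := by
            refine Finset.sum_le_sum ?_
            intro z _
            by_cases hsub : E (τ j) ⊆ M.closure (z '' J)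
            · simp [hsub]
            · have h3 := hreg (τ j) _ (M.isFlat_closure (z '' J)) hsub
              have h4 : (E (τ j) ∩ M.closure (z '' J)).ncard =
                  (Ej.filter (fun w => w ∈ M.closure (z '' J) ∧
                    ¬ E (τ j) ⊆ M.closure (z '' J))).card := by
                rw [← Set.ncard_coe_finset]; congr 1; ext w
                simp [hEj, hsub]
              have h5 : (E (τ j)).ncard = Ej.card := by
                rw [hEj, Set.ncard_eq_toFinset_card']
              rw [h4, h5] at h3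
              exact h3
        _ = 𝒳.card * Ej.card := by rw [Finset.sum_const, smul_eq_mul]
    rw [Finset.card_product] at h1
    calc K * Bd.card * Ej.card = K * (Bd.card * Ej.card) := by ring
      _ ≤ K * S.card := Nat.mul_le_mul_left _ h1
      _ ≤ _ := h2

/-- Lemma A: a good type gives many circuits. -/
theorem circuits_of_SC {M : Matroid α} (hE : M.E = Set.univ) {r K Q n : ℕ} (hr2 : 2 ≤ r)
    (hr : rk M Set.univ = r) {E : ι → Set α} {τ : Fin (r + 1) → ι} (hSC : SC M r E τ)
    (hreg : ∀ i, Regular M K (E i)) (hK : (r + 1) * 2 ^ (r + 2) ≤ K)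
    (hlarge : ∀ i, (E i).Nonempty → n ≤ Q * (E i).ncard) :
    n ^ (r + 1) ≤ Q ^ (r + 1) * (2 * (r + 1) ^ (r + 1)) * {C | M.IsCircuit C}.ncard := by
  classical
  have := Fintype.ofFinite α
  set 𝒳 := Fintype.piFinset (fun j => (E (τ j)).toFinset) with h𝒳
  have hKpos : 0 < K := lt_of_lt_of_le (by positivity) hK
  -- classes are nonempty
  have hne : ∀ j, (E (τ j)).Nonempty := by
    intro j
    by_contra hcon
    rw [Set.not_nonempty_iff_eq_empty] at hcon
    have h1 : un E {τ j} = ∅ := by
      simp [un, hcon]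
    have h2 : rk M (∅ : Set α) = 0 := by
      have := rk_le_ncard M (∅ : Set α)
      rw [Set.ncard_empty] at this; omega
    have h3 := hSC {τ j} (by rw [h1, h2]; omega)
    rw [h1, h2] at h3
    have h4 : j ∈ τ ⁻¹' {τ j} := rfl
    have h5 : 0 < (τ ⁻¹' {τ j}).ncard := (Set.ncard_pos (Set.toFinite _)).2 ⟨j, h4⟩
    omega
  have h1 : n ^ (r + 1) ≤ Q ^ (r + 1) * 𝒳.card := by
    rw [h𝒳, Fintype.card_piFinset]
    have h2 : ∏ _j : Fin (r + 1), n ≤ ∏ j : Fin (r + 1), (Q * (E (τ j)).toFinset.card) := by
      refine Finset.prod_le_prod' ?_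
      intro j _
      have := hlarge (τ j) (hne j)
      rwa [Set.ncard_eq_toFinset_card'] at this
    rw [Finset.prod_mul_distrib] at h2
    simpa using h2
  -- the good tuples
  set G := 𝒳.filter (fun x => GoodTuple M r E τ x) with hG
  set P : Finset (Set (Fin (r + 1)) × Fin (r + 1)) := Finset.univ.filter (fun p => p.2 ∉ p.1) with hP
  set Bd : Set (Fin (r + 1)) × Fin (r + 1) → Finset (Fin (r + 1) → α) := fun p =>
    𝒳.filter (fun x => x p.2 ∈ M.closure (x '' p.1) ∧ ¬ E (τ p.2) ⊆ M.closure (x '' p.1)) with hBd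
  have hcov : 𝒳 ⊆ G ∪ P.biUnion Bd := by
    intro x hx
    rw [Finset.mem_union]
    by_cases hgood : GoodTuple M r E τ x
    · left; rw [hG, Finset.mem_filter]; exact ⟨hx, hgood⟩
    · right
      unfold GoodTuple at hgood
      push Not at hgood
      obtain ⟨J, j, hj, hxj, hEj⟩ := hgood
      rw [Finset.mem_biUnion]
      refine ⟨(J, j), ?_, ?_⟩
      · rw [hP, Finset.mem_filter]; exact ⟨Finset.mem_univ _, hj⟩
      · rw [hBd]; simp only [Finset.mem_filter]; exact ⟨hx, hxj, hEj⟩
  have hPcard : P.card ≤ 2 ^ (r + 1) * (r + 1) := by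
    calc P.card ≤ (Finset.univ : Finset (Set (Fin (r + 1)) × Fin (r + 1))).card :=
          Finset.card_filter_le _ _
      _ = 2 ^ (r + 1) * (r + 1) := by
          rw [Finset.card_univ, Fintype.card_prod, Fintype.card_set, Fintype.card_fin]
  have hBdcard : K * (P.biUnion Bd).card ≤ 2 ^ (r + 1) * (r + 1) * 𝒳.card := by
    calc K * (P.biUnion Bd).card ≤ K * ∑ p ∈ P, (Bd p).card :=
          Nat.mul_le_mul_left _ Finset.card_biUnion_le
      _ = ∑ p ∈ P, K * (Bd p).card := Finset.mul_sum _ _ _
      _ ≤ ∑ p ∈ P, 𝒳.card := by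
          refine Finset.sum_le_sum ?_
          rintro ⟨J, j⟩ hp
          rw [hP, Finset.mem_filter] at hp
          exact bad_count hreg J j hp.2
      _ = P.card * 𝒳.card := by rw [Finset.sum_const, smul_eq_mul]
      _ ≤ _ := Nat.mul_le_mul_right _ hPcard
  have h2B : 2 * (P.biUnion Bd).card ≤ 𝒳.card := by
    have h7 : K * (2 * (P.biUnion Bd).card) ≤ K * 𝒳.card := by
      calc K * (2 * (P.biUnion Bd).card) = 2 * (K * (P.biUnion Bd).card) := by ring
        _ ≤ 2 * (2 ^ (r + 1) * (r + 1) * 𝒳.card) := Nat.mul_le_mul_left _ hBdcard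
        _ = (r + 1) * 2 ^ (r + 2) * 𝒳.card := by ring
        _ ≤ K * 𝒳.card := Nat.mul_le_mul_right _ hK
    exact Nat.le_of_mul_le_mul_left h7 hKpos
  have h2G : 𝒳.card ≤ 2 * G.card := by
    have := (Finset.card_le_card hcov).trans (Finset.card_union_le _ _)
    omega
  -- good tuples give circuits
  have hGC : G.card ≤ (r + 1) ^ (r + 1) * {C | M.IsCircuit C}.ncard := by
    have h3 : G.card ≤ (r + 1) ^ (r + 1) * (G.image (fun x => Set.range x)).card := by
      refine Finset.card_le_mul_card_image _ _ ?_
      intro C hC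
      rw [Finset.mem_image] at hC
      obtain ⟨x₀, -, rfl⟩ := hC
      calc (G.filter (fun x => Set.range x = Set.range x₀)).card
          ≤ (Fintype.piFinset (fun _ : Fin (r + 1) => (Set.range x₀).toFinset)).card := by
            refine Finset.card_le_card ?_
            intro x hx
            rw [Finset.mem_filter] at hx
            rw [Fintype.mem_piFinset]
            intro i
            rw [Set.mem_toFinset, ← hx.2]
            exact ⟨i, rfl⟩
        _ = (Set.range x₀).toFinset.card ^ (r + 1) := by
            rw [Fintype.card_piFinset]; simp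
        _ ≤ (r + 1) ^ (r + 1) := by
            refine Nat.pow_le_pow_left ?_ _
            rw [← Set.ncard_eq_toFinset_card', ← Set.image_univ]
            refine (Set.ncard_image_le (Set.toFinite _)).trans ?_
            rw [Set.ncard_univ, Nat.card_fin]
    refine h3.trans (Nat.mul_le_mul_left _ ?_)
    rw [← Set.ncard_coe_finset]
    refine Set.ncard_le_ncard ?_ (Set.toFinite _)
    intro C hC
    rw [Finset.mem_coe, Finset.mem_image] at hC
    obtain ⟨x, hx, rfl⟩ := hC
    rw [hG, Finset.mem_filter] at hx
    exact good_circuit hE hr2 hr hSC hx.2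
  calc n ^ (r + 1) ≤ Q ^ (r + 1) * 𝒳.card := h1
    _ ≤ Q ^ (r + 1) * (2 * ((r + 1) ^ (r + 1) * {C | M.IsCircuit C}.ncard)) :=
        Nat.mul_le_mul_left _ (h2G.trans (Nat.mul_le_mul_left _ hGC))
    _ = _ := by ring

end Pool.Agent.Work.MP_f3d170_co_helper60
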