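import Mathlib
import Pool.Agent.Work.MP_f3d170_co_helper60.SC

set_option autoImplicit false

open Set Matroid

namespace Pool.Agent.Work.MP_f3d170_co_helper60

variable {α ι : Type*} [Finite α]

set_option linter.unusedSectionVars false

/-- Lemma B: without good types, the independence of an `r`-set that avoids the rest is decided
inside the nonspanning unions of classes. -/
theorem indep_of_no_SC {M : Matroid α} (hE : M.E = Set.univ) {r : ℕ}
    {g : α → Option ι} (hno : ∀ τ : Fin (r + 1) → ι, ¬ SC M r (cls g) τ) {S : Set α}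
    (hS : S.ncard = r) (hSsub : ∀ x ∈ S, g x ≠ none)
    (hspan : r ≤ rk M (un (cls g) Set.univ))
    (hind : ∀ I : Set ι, rk M (un (cls g) I) < r → M.Indep (S ∩ un (cls g) I)) :
    M.Indep S := by
  -- enumerate `S`
  obtain ⟨y, hyinj, hyS⟩ : ∃ y : Fin r → α, Function.Injective y ∧ Set.range y = S := by
    have h1 : Nat.card S = r := by rw [Nat.card_coe_set_eq, hS]
    have e := Finite.equivFinOfCardEq h1
    refine ⟨fun k => (e.symm k : α), ?_, ?_⟩
    · intro a b hab
      exact e.symm.injective (Subtype.ext hab)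
    · ext x
      constructor
      · rintro ⟨k, rfl⟩
        exact (e.symm k).2
      · intro hx
        exact ⟨e ⟨x, hx⟩, by simp⟩
  have key : ∀ i : ι, cls g i ⊆ M.closure S := by
    intro i
    set c : Fin r → ι := fun k => (g (y k)).getD i with hc
    have hcy : ∀ k, g (y k) = some (c k) := by
      intro k
      have h1 : y k ∈ S := hyS ▸ ⟨k, rfl⟩
      have h2 := hSsub _ h1
      obtain ⟨j, hj⟩ := Option.ne_none_iff_exists'.1 h2
      rw [hc]; simp [hj]
    set τ : Fin (r + 1) → ι := Fin.snoc c i with hτ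
    have h1 := hno τ
    unfold SC at h1
    push Not at h1
    obtain ⟨I, hI1, hI2⟩ := h1
    have hind' := hind I hI1
    have h2 : (S ∩ un (cls g) I).ncard ≤ rk M (un (cls g) I) := by
      rw [← indep_iff_rk.1 hind']
      exact rk_mono M Set.inter_subset_right
    have h3 : {k | c k ∈ I}.ncard ≤ (S ∩ un (cls g) I).ncard := by
      rw [← Set.ncard_image_of_injective _ hyinj]
      refine Set.ncard_le_ncard ?_ (Set.toFinite _)
      rintro _ ⟨k, hk, rfl⟩
      exact ⟨hyS ▸ ⟨k, rfl⟩, subset_un (E := cls g) (I := I) (i := c k) hk (hcy k)⟩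
    have h4 : τ ⁻¹' I ⊆ Fin.castSucc '' {k | c k ∈ I} ∪ {j | j = Fin.last r ∧ i ∈ I} := by
      intro j hj
      rcases Fin.eq_castSucc_or_eq_last j with ⟨k, rfl⟩ | rfl
      · left
        refine ⟨k, ?_, rfl⟩
        have : τ (Fin.castSucc k) = c k := by rw [hτ]; simp [Fin.snoc_castSucc]
        rw [Set.mem_preimage, this] at hj
        exact hj
      · right
        refine ⟨rfl, ?_⟩
        have : τ (Fin.last r) = i := by rw [hτ]; simp [Fin.snoc_last]
        rw [Set.mem_preimage, this] at hj
        exact hj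
    have h5 := (Set.ncard_le_ncard h4 (Set.toFinite _)).trans (Set.ncard_union_le _ _)
    rw [Set.ncard_image_of_injective _ (Fin.castSucc_injective r)] at h5
    by_cases hi : i ∈ I
    · have h6 : {j | j = Fin.last r ∧ i ∈ I}.ncard = 1 := by
        have : {j | j = Fin.last r ∧ i ∈ I} = {Fin.last r} := by
          ext j; simp [hi]
        rw [this, Set.ncard_singleton]
      have h7 : rk M (un (cls g) I) ≤ rk M (S ∩ un (cls g) I) := by
        rw [indep_iff_rk.1 hind']; omega
      have h8 := closure_eq_of_rk (Set.inter_subset_right (s := S) (t := un (cls g) I)) h7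
      calc cls g i ⊆ un (cls g) I := subset_un hi
        _ ⊆ M.closure (un (cls g) I) :=
            M.subset_closure _ (by rw [hE]; exact Set.subset_univ _)
        _ = M.closure (S ∩ un (cls g) I) := h8.symm
        _ ⊆ M.closure S := M.closure_subset_closure Set.inter_subset_left
    · exfalso
      have h6 : {j | j = Fin.last r ∧ i ∈ I}.ncard = 0 := by
        have : {j | j = Fin.last r ∧ i ∈ I} = ∅ := by
          ext j; simp [hi]
        rw [this, Set.ncard_empty]
      omega
  have h1 : un (cls g) Set.univ ⊆ M.closure S := un_subset fun i _ => key i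
  have h2 := rk_le_of_subset_closure h1
  have h3 := rk_le_ncard M S
  rw [indep_iff_rk]
  omega

lemma indep_transfer {M M' : Matroid α} (hE' : M'.E = Set.univ)
    {r : ℕ} {g : α → Option ι} (hno' : ∀ τ : Fin (r + 1) → ι, ¬ SC M' r (cls g) τ)
    (hflag : ∀ I : Set ι, rk M (un (cls g) I) < r ↔ rk M' (un (cls g) I) < r)
    (hres : ∀ I : Set ι, rk M (un (cls g) I) < r →
      M ↾ (un (cls g) I) = M' ↾ (un (cls g) I))
    (hnl : ∀ e, M.IsNonloop e ↔ M'.IsNonloop e)
    (hcon : ∀ e ∈ rest g, M.IsNonloop e → M ／ {e} = M' ／ {e})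
    {S : Set α} (hS : S.ncard = r) (hind : M.Indep S) : M'.Indep S := by
  by_cases hrest : ∃ e ∈ S, g e = none
  · obtain ⟨e, heS, he⟩ := hrest
    have hnle : M.IsNonloop e := hind.isNonloop_of_mem heS
    have h1 := hcon e he hnle
    have h2 : (M ／ {e}).Indep (S \ {e}) := by
      rw [hnle.indep.contract_indep_iff]
      refine ⟨Set.disjoint_sdiff_left, ?_⟩
      rw [Set.sdiff_union_self, Set.union_eq_self_of_subset_right (Set.singleton_subset_iff.2 heS)]
      exact hind
    rw [h1, ((hnl e).1 hnle).indep.contract_indep_iff] at h2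
    have h3 := h2.2
    rwa [Set.sdiff_union_self, Set.union_eq_self_of_subset_right
      (Set.singleton_subset_iff.2 heS)] at h3
  · push Not at hrest
    have hsub : S ⊆ un (cls g) Set.univ := by
      intro x hx
      obtain ⟨i, hi⟩ := Option.ne_none_iff_exists'.1 (hrest x hx)
      exact subset_un (Set.mem_univ i) hi
    have h1 : r ≤ rk M (un (cls g) Set.univ) := by
      have := rk_mono M hsub
      rwa [indep_iff_rk.1 hind, hS] at this
    have h2 : r ≤ rk M' (un (cls g) Set.univ) := by
      by_contra hcon'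
      push Not at hcon'
      have := (hflag Set.univ).2 hcon'
      omega
    refine indep_of_no_SC hE' hno' hS hrest h2 ?_
    intro I hI
    have h3 := hres I ((hflag I).2 hI)
    have h4 : (M ↾ (un (cls g) I)).Indep (S ∩ un (cls g) I) := by
      rw [restrict_indep_iff]
      exact ⟨hind.subset Set.inter_subset_left, Set.inter_subset_right⟩
    rw [h3, restrict_indep_iff] at h4
    exact h4.1

/-- Two matroids without good types and with the same data are equal. -/
theorem eq_of_data {M M' : Matroid α} (hE : M.E = Set.univ) (hE' : M'.E = Set.univ)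
    {r : ℕ} (hr : rk M Set.univ = r) (hr' : rk M' Set.univ = r) {g : α → Option ι}
    (hno : ∀ τ : Fin (r + 1) → ι, ¬ SC M r (cls g) τ)
    (hno' : ∀ τ : Fin (r + 1) → ι, ¬ SC M' r (cls g) τ)
    (hflag : ∀ I : Set ι, rk M (un (cls g) I) < r ↔ rk M' (un (cls g) I) < r)
    (hres : ∀ I : Set ι, rk M (un (cls g) I) < r →
      M ↾ (un (cls g) I) = M' ↾ (un (cls g) I))
    (hnl : ∀ e, M.IsNonloop e ↔ M'.IsNonloop e)
    (hcon : ∀ e ∈ rest g, M.IsNonloop e → M ／ {e} = M' ／ {e}) : M = M' := by
  have hbase : ∀ (N : Matroid α), N.E = Set.univ → rk N Set.univ = r → ∀ B : Set α,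
      N.IsBase B ↔ N.Indep B ∧ B.ncard = r := by
    intro N hN hrN B
    constructor
    · intro hB
      refine ⟨hB.indep, ?_⟩
      have h1 := hB.encard_eq_eRank
      rw [← N.eRk_univ_eq, ← coe_rk, hrN, ← (Set.toFinite B).cast_ncard_eq, Nat.cast_inj] at h1
      exact h1
    · rintro ⟨hI, hc⟩
      refine hI.isBase_of_eRk_ge (Set.toFinite B) ?_
      rw [hI.eRk_eq_encard, ← N.eRk_univ_eq, ← coe_rk, hrN, ← (Set.toFinite B).cast_ncard_eq, hc]
  refine Matroid.ext_isBase (by rw [hE, hE']) ?_
  intro B _
  rw [hbase M hE hr, hbase M' hE' hr']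
  constructor
  · rintro ⟨hI, hc⟩
    exact ⟨indep_transfer hE' hno' hflag hres hnl hcon hc hI, hc⟩
  · rintro ⟨hI, hc⟩
    exact ⟨indep_transfer hE hno (fun I => (hflag I).symm)
      (fun I hI => (hres I ((hflag I).2 hI)).symm) (fun e => (hnl e).symm)
      (fun e he hle => (hcon e he ((hnl e).2 hle)).symm) hc hI, hc⟩

end Pool.Agent.Work.MP_f3d170_co_helper60
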