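import Mathlib
import Pool.Agent.Work.MP_f3d170_co_h45.Defs
import Pool.Agent.Work.MP_f3d170_co_helper60.Det
import Pool.Agent.Work.MP_f3d170_co_helper60.LowCount

set_option autoImplicit false

open Set Matroid
open Pool.Agent.Work.MP_f3d170_co_h45 (RankMatroid numCircuits numBases)

namespace Pool.Agent.Work.MP_f3d170_co_helper60

lemma rk_univ_of_eRank {n r : ℕ} (M : RankMatroid n r) : rk M.1 Set.univ = r := by
  have h := M.2.2
  rw [← M.1.eRk_univ_eq, ← coe_rk, Nat.cast_inj] at h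
  exact h

/-- The matroids with few circuits. -/
def Few (n r K : ℕ) : Type := {M : RankMatroid n r // K * numCircuits M.1 < n ^ (r + 1)}

instance (n r K : ℕ) : Finite (Few n r K) := by
  refine Finite.of_injective (β := Matroid (Fin n)) (fun M => M.1.1) ?_
  intro M M' h
  exact Subtype.ext (Subtype.ext h)

theorem card_few_le {n s K D : ℕ} (hs : 1 ≤ s) (hn : 0 < n) (hK : (s + 2) * 2 ^ (s + 3) ≤ K)
    (hD : 1 ≤ D) :
    Nat.card (Few n (s + 1) ((K ^ (s + 1) * D) ^ (s + 2) * (2 * (s + 2) ^ (s + 2)))) ≤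
      (K ^ (s + 1) * D + 1) ^ n * (2 ^ 2 ^ (K ^ (s + 1) * D) *
        (Nat.card (LowRank n s) ^ 2 ^ (K ^ (s + 1) * D) *
          (2 ^ n * Nat.card (LowRank n s) ^ (n / D)))) := by
  classical
  set Q := K ^ (s + 1) * D with hQ
  set K2 := Q ^ (s + 2) * (2 * (s + 2) ^ (s + 2)) with hK2
  have hKpos : 1 ≤ K := le_trans (Nat.mul_pos (by omega) (by positivity)) hK
  -- enumerations of small sets
  have henum : ∀ X : Set (Fin n), ∃ f : Fin (n / D) → Fin n,
      D * X.ncard ≤ n → X ⊆ Set.range f := by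
    intro X
    by_cases hX : D * X.ncard ≤ n
    · have h1 : X.ncard ≤ n / D := by
        rw [Nat.le_div_iff_mul_le hD, mul_comm]; exact hX
      have h2 : Nat.card X = X.ncard := Nat.card_coe_set_eq X
      have e := Finite.equivFinOfCardEq h2
      refine ⟨fun k => if h : k.1 < X.ncard then (e.symm ⟨k.1, h⟩ : Fin n) else ⟨0, hn⟩, ?_⟩
      intro _ x hx
      refine ⟨⟨(e ⟨x, hx⟩).1, lt_of_lt_of_le (e ⟨x, hx⟩).2 h1⟩, ?_⟩
      have h3 : (e ⟨x, hx⟩).1 < X.ncard := (e ⟨x, hx⟩).2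
      simp only [h3, dif_pos, Fin.eta, Equiv.symm_apply_apply]
    · exact ⟨fun _ => ⟨0, hn⟩, fun h => absurd h hX⟩
  choose enum henum using henum
  -- the partition of a matroid
  have hg : ∀ M : Few n (s + 1) K2, ∃ g : Fin n → Option (Fin Q),
      GoodPart M.1.1 K Q n g ∧ D * (rest g).ncard ≤ n := by
    intro M
    exact exists_goodPart M.1.2.1 hKpos hD (rk_univ_of_eRank M.1).le (Nat.card_fin n) hn
  choose g hg1 hg2 using hg
  have hno : ∀ (M : Few n (s + 1) K2) (τ : Fin (s + 1 + 1) → Fin Q),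
      ¬ SC M.1.1 (s + 1) (cls (g M)) τ := by
    intro M τ hSC
    have h1 := circuits_of_SC (Q := Q) (n := n) M.1.2.1 (by omega : 2 ≤ s + 1)
      (rk_univ_of_eRank M.1) hSC
      (fun i => (hg1 M i).1) hK (fun i => (hg1 M i).2)
    have h2 : Q ^ (s + 2) * (2 * (s + 2) ^ (s + 2)) * {C | M.1.1.IsCircuit C}.ncard <
        n ^ (s + 1 + 1) := M.2
    exact absurd h1 (not_le.2 h2)
  -- restrictions
  have hres : ∀ (M : Few n (s + 1) K2) (I : Set (Fin Q)), ∃ N : LowRank n s,
      rk M.1.1 (un (cls (g M)) I) < s + 1 → N.1 = M.1.1 ↾ (un (cls (g M)) I) := by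
    intro M I
    by_cases h : rk M.1.1 (un (cls (g M)) I) < s + 1
    · refine ⟨⟨M.1.1 ↾ (un (cls (g M)) I), ?_⟩, fun _ => rfl⟩
      rw [eRank_restrict, ← coe_rk, Nat.cast_le]
      omega
    · exact ⟨Classical.arbitrary _, fun h' => absurd h' h⟩
  choose res hres using hres
  have hcon : ∀ (M : Few n (s + 1) K2) (k : Fin (n / D)), ∃ N : LowRank n s,
      M.1.1.IsNonloop (enum (rest (g M)) k) → N.1 = M.1.1 ／ {enum (rest (g M)) k} := by
    intro M k
    by_cases he : M.1.1.IsNonloop (enum (rest (g M)) k)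
    · refine ⟨⟨M.1.1 ／ {enum (rest (g M)) k}, eRank_contract_le he ?_⟩, fun _ => rfl⟩
      rw [M.1.2.2]
    · exact ⟨Classical.arbitrary _, fun h => absurd h he⟩
  choose con hcon using hcon
  set Φ : Few n (s + 1) K2 → (Fin n → Option (Fin Q)) × (Set (Set (Fin Q)) ×
      ((Set (Fin Q) → LowRank n s) × (Set (Fin n) × (Fin (n / D) → LowRank n s)))) :=
    fun M => (g M, ({I | rk M.1.1 (un (cls (g M)) I) < s + 1}, (res M,
      ({e | M.1.1.IsNonloop e}, con M)))) with hΦ
  have hinj : Function.Injective Φ := by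
    intro M M' h
    simp only [hΦ, Prod.mk.injEq] at h
    obtain ⟨hgg, hfl, hrr, hnl, hcc⟩ := h
    have hflag : ∀ I : Set (Fin Q), rk M.1.1 (un (cls (g M)) I) < s + 1 ↔
        rk M'.1.1 (un (cls (g M)) I) < s + 1 := by
      intro I
      have : I ∈ {I | rk M.1.1 (un (cls (g M)) I) < s + 1} ↔
          I ∈ {I | rk M'.1.1 (un (cls (g M')) I) < s + 1} := by rw [hfl]
      rw [hgg]
      rw [hgg] at this
      exact this
    have hnl' : ∀ e, M.1.1.IsNonloop e ↔ M'.1.1.IsNonloop e := by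
      intro e
      have : e ∈ {e | M.1.1.IsNonloop e} ↔ e ∈ {e | M'.1.1.IsNonloop e} := by rw [hnl]
      exact this
    apply Subtype.ext
    apply Subtype.ext
    refine eq_of_data M.1.2.1 M'.1.2.1 (rk_univ_of_eRank M.1) (rk_univ_of_eRank M'.1)
      (g := g M) (hno M) (by rw [hgg]; exact hno M') hflag ?_ hnl' ?_
    · intro I hI
      have h1 := hres M I hI
      have h2 := hres M' I (by rw [← hgg]; exact (hflag I).1 hI)
      rw [← h1, hrr, h2, hgg]
    · intro e he hle
      obtain ⟨k, hk⟩ := henum (rest (g M)) (hg2 M) he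
      have h1 := hcon M k (by rw [hk]; exact hle)
      have h2 := hcon M' k (by rw [← hgg, hk]; exact (hnl' e).1 hle)
      rw [hk] at h1
      rw [← hgg, hk] at h2
      rw [← h1, ← h2, hcc]
  have h := Nat.card_le_card_of_injective _ hinj
  rw [Nat.card_prod, Nat.card_prod, Nat.card_prod, Nat.card_prod, Nat.card_fun, Nat.card_fun,
    Nat.card_fun, card_set_fin, card_set_fin, Nat.card_fin, Nat.card_fin] at h
  have h5 : Nat.card (Set (Set (Fin Q))) = 2 ^ 2 ^ Q := by
    rw [Nat.card_eq_fintype_card, Fintype.card_set, Fintype.card_set, Fintype.card_fin]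
  have h6 : Nat.card (Option (Fin Q)) = Q + 1 := by
    rw [Finite.card_option, Nat.card_fin]
  rw [h5, h6] at h
  exact h

end Pool.Agent.Work.MP_f3d170_co_helper60
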