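import Mathlib

set_option autoImplicit false

namespace Pool.Agent.Work.MP_f3d170_co_helper60

open Nat

/-- The comparison of the two counts. -/
theorem numeric {ρ n Q D P a : ℕ} (hP : P = (4 * (ρ + 2)) ^ (ρ + 2)) (hD : D = 4 * (ρ + 2) * P)
    (hn : 4 * P * (4 + 2 ^ Q * (ρ + 2)) + Q + 12 * (ρ + 2) + 65 ≤ n)
    (ha : a ≤ (4 * n) ^ ((ρ + 1) * n ^ (ρ + 1))) :
    2 * (n ! * ((Q + 1) ^ n * (2 ^ 2 ^ Q * (a ^ 2 ^ Q * (2 ^ n * a ^ (n / D)))))) ≤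
      ((ρ + 2) * (n / (3 * (ρ + 2)))) ^ ((n / (3 * (ρ + 2))) ^ (ρ + 2)) := by
  set m := n / (3 * (ρ + 2)) with hm
  set b := 4 * n with hb
  have hbpos : 1 ≤ b := by omega
  have hPpos : 0 < P := by rw [hP]; positivity
  have hnP : 4 * P * (4 + 2 ^ Q * (ρ + 2)) ≤ n := by omega
  -- the left side is at most `b ^ e`
  set e := 1 + 3 * n + 2 ^ Q + (2 ^ Q + n / D) * ((ρ + 1) * n ^ (ρ + 1)) with he
  have h1 : 2 * (n ! * ((Q + 1) ^ n * (2 ^ 2 ^ Q * (a ^ 2 ^ Q * (2 ^ n * a ^ (n / D)))))) ≤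
      b ^ e := by
    have e1 : 2 ≤ b ^ 1 := by rw [pow_one]; omega
    have e2 : n ! ≤ b ^ n := by
      calc n ! ≤ n ^ n := Nat.factorial_le_pow n
        _ ≤ b ^ n := Nat.pow_le_pow_left (by omega) n
    have e3 : (Q + 1) ^ n ≤ b ^ n := Nat.pow_le_pow_left (by omega) n
    have e4 : 2 ^ 2 ^ Q ≤ b ^ 2 ^ Q := Nat.pow_le_pow_left (by omega) _
    have e5 : a ^ 2 ^ Q ≤ (b ^ ((ρ + 1) * n ^ (ρ + 1))) ^ 2 ^ Q := Nat.pow_le_pow_left ha _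
    have e6 : 2 ^ n ≤ b ^ n := Nat.pow_le_pow_left (by omega) n
    have e7 : a ^ (n / D) ≤ (b ^ ((ρ + 1) * n ^ (ρ + 1))) ^ (n / D) := Nat.pow_le_pow_left ha _
    calc 2 * (n ! * ((Q + 1) ^ n * (2 ^ 2 ^ Q * (a ^ 2 ^ Q * (2 ^ n * a ^ (n / D))))))
        ≤ b ^ 1 * (b ^ n * (b ^ n * (b ^ 2 ^ Q * ((b ^ ((ρ + 1) * n ^ (ρ + 1))) ^ 2 ^ Q *
          (b ^ n * (b ^ ((ρ + 1) * n ^ (ρ + 1))) ^ (n / D)))))) := by gcongr
      _ = b ^ e := by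
          rw [← pow_mul, ← pow_mul, ← pow_add, ← pow_add, ← pow_add, ← pow_add, ← pow_add,
            ← pow_add]
          congr 1
          rw [he]; ring
  -- `m` is large
  have hm4 : n ≤ 4 * (ρ + 2) * m := by
    have h2 : n < 3 * (ρ + 2) * (m + 1) := by
      rw [hm]; exact Nat.lt_mul_div_succ n (by omega)
    have h3 : 3 * (ρ + 2) * (m + 1) = 3 * ((ρ + 2) * m) + 3 * (ρ + 2) := by ring
    have h4 : 4 * (ρ + 2) * m = 4 * ((ρ + 2) * m) := by ring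
    have h5 : 12 * (ρ + 2) ≤ n := by omega
    rw [h4]
    rw [h3] at h2
    omega
  have hb2 : b ≤ ((ρ + 2) * m) ^ 2 := by
    have h3 : n ≤ 4 * ((ρ + 2) * m) := by rw [← mul_assoc]; exact hm4
    have h4 : 65 ≤ n := by omega
    nlinarith
  have hPm : n ^ (ρ + 2) ≤ P * m ^ (ρ + 2) := by
    rw [hP, ← mul_pow]
    exact Nat.pow_le_pow_left hm4 _
  -- the exponent
  have h2e : 2 * e ≤ m ^ (ρ + 2) := by
    have hnρ : 1 ≤ n ^ (ρ + 1) := Nat.one_le_pow _ _ (by omega)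
    have hnn : n ≤ n ^ (ρ + 1) := Nat.le_self_pow (by omega) n
    have h5 : 4 * P * (1 + 3 * n + 2 ^ Q + 2 ^ Q * ((ρ + 1) * n ^ (ρ + 1))) ≤ n ^ (ρ + 2) := by
      have h6 : 1 + 3 * n + 2 ^ Q + 2 ^ Q * ((ρ + 1) * n ^ (ρ + 1)) ≤
          (4 + 2 ^ Q * (ρ + 2)) * n ^ (ρ + 1) := by
        have h7 : 2 ^ Q ≤ 2 ^ Q * n ^ (ρ + 1) := Nat.le_mul_of_pos_right _ hnρ
        nlinarith
      calc 4 * P * (1 + 3 * n + 2 ^ Q + 2 ^ Q * ((ρ + 1) * n ^ (ρ + 1)))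
          ≤ 4 * P * ((4 + 2 ^ Q * (ρ + 2)) * n ^ (ρ + 1)) := Nat.mul_le_mul_left _ h6
        _ = (4 * P * (4 + 2 ^ Q * (ρ + 2))) * n ^ (ρ + 1) := by ring
        _ ≤ n * n ^ (ρ + 1) := Nat.mul_le_mul_right _ hnP
        _ = n ^ (ρ + 2) := by ring
    have h8 : 4 * P * ((n / D) * ((ρ + 1) * n ^ (ρ + 1))) ≤ n ^ (ρ + 2) := by
      have h9 : D * (n / D) ≤ n := Nat.mul_div_le n D
      calc 4 * P * ((n / D) * ((ρ + 1) * n ^ (ρ + 1)))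
          ≤ 4 * P * ((n / D) * ((ρ + 2) * n ^ (ρ + 1))) := by gcongr; omega
        _ = (D * (n / D)) * n ^ (ρ + 1) := by rw [hD]; ring
        _ ≤ n * n ^ (ρ + 1) := Nat.mul_le_mul_right _ h9
        _ = n ^ (ρ + 2) := by ring
    have h10 : 4 * P * e ≤ 2 * n ^ (ρ + 2) := by
      have : 4 * P * e = 4 * P * (1 + 3 * n + 2 ^ Q + 2 ^ Q * ((ρ + 1) * n ^ (ρ + 1))) +
          4 * P * ((n / D) * ((ρ + 1) * n ^ (ρ + 1))) := by
        rw [he]; ring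
      rw [this]; omega
    have h11 : P * (2 * e) ≤ P * m ^ (ρ + 2) := by
      have : P * (2 * e) * 2 ≤ n ^ (ρ + 2) * 2 := by linarith
      have : P * (2 * e) ≤ n ^ (ρ + 2) := by omega
      exact this.trans hPm
    exact Nat.le_of_mul_le_mul_left h11 hPpos
  calc _ ≤ b ^ e := h1
    _ ≤ (((ρ + 2) * m) ^ 2) ^ e := Nat.pow_le_pow_left hb2 _
    _ = ((ρ + 2) * m) ^ (2 * e) := by rw [← pow_mul]
    _ ≤ ((ρ + 2) * m) ^ (m ^ (ρ + 2)) := by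
        refine Nat.pow_le_pow_right ?_ h2e
        by_contra hcon
        have h0 : (ρ + 2) * m = 0 := by omega
        rw [h0] at hb2
        omega

end Pool.Agent.Work.MP_f3d170_co_helper60
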