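import Mathlib
import Pool.Agent.Work.MP_f3d170_co_h45.Defs
import Pool.Agent.Work.MP_f3d170_co_h45.Final
import Pool.Agent.Work.MP_f3d170_co_helper60.BadCount
import Pool.Agent.Work.MP_f3d170_co_helper60.Lower
import Pool.Agent.Work.MP_f3d170_co_helper60.Numeric

set_option autoImplicit false

open Set Matroid Nat
open Pool.Agent.Work.MP_f3d170_co_h45

namespace Pool.Agent.Work.MP_f3d170_co_helper60

/-- The total number of matroids is at most `n!` times the number of classes. -/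
lemma card_rankMatroid_le {n r : ℕ} {𝒩 : Finset (RankMatroid n r)} (h : IsTransversal 𝒩) :
    Nat.card (RankMatroid n r) ≤ 𝒩.card * n ! := by
  classical
  have hex : ∀ M : RankMatroid n r, ∃ N : {N // N ∈ 𝒩}, ∃ σ : Equiv.Perm (Fin n),
      ∀ I : Set (Fin n), M.1.Indep I ↔ N.1.1.Indep (σ '' I) := by
    intro M
    obtain ⟨N, ⟨hN, σ, hσ⟩, -⟩ := h M
    exact ⟨⟨N, hN⟩, σ, hσ⟩
  choose F σ hσ using hex
  have hinj : Function.Injective (fun M => (F M, σ M)) := by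
    intro M M' hMM
    simp only [Prod.mk.injEq] at hMM
    apply Subtype.ext
    refine Matroid.ext_indep (by rw [M.2.1, M'.2.1]) ?_
    intro I _
    rw [hσ M I, hσ M' I, hMM.1, hMM.2]
  have h1 := Nat.card_le_card_of_injective _ hinj
  have h2 : Nat.card {N // N ∈ 𝒩} = 𝒩.card := by
    rw [Nat.card_eq_fintype_card, Fintype.card_coe]
  have h3 : Nat.card (Equiv.Perm (Fin n)) = n ! := by
    rw [Nat.card_eq_fintype_card, Fintype.card_perm, Fintype.card_fin]
  rw [Nat.card_prod, h2, h3] at h1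
  exact h1

lemma numBases_le {n r : ℕ} (M : RankMatroid n r) : numBases M.1 ≤ n ^ r := by
  classical
  have hsub : {B | M.1.IsBase B} ⊆
      (fun f : Fin r → Fin n => Set.range f) '' Set.univ := by
    intro B hB
    have hB1 : B.encard = r := by
      have := (hB : M.1.IsBase B).encard_eq_eRank
      rw [this, M.2.2]
    have hB2 : Nat.card B = r := by
      rw [Nat.card_coe_set_eq, Set.ncard, hB1]; rfl
    have e := Finite.equivFinOfCardEq hB2
    refine ⟨fun k => (e.symm k : Fin n), Set.mem_univ _, ?_⟩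
    ext x
    constructor
    · rintro ⟨k, rfl⟩; exact (e.symm k).2
    · intro hx; exact ⟨e ⟨x, hx⟩, by simp⟩
  refine (Set.ncard_le_ncard hsub (Set.toFinite _)).trans ?_
  refine (Set.ncard_image_le (Set.toFinite _)).trans ?_
  rw [Set.ncard_univ, Nat.card_fun, Nat.card_fin, Nat.card_fin]

/-- If few labelled matroids have few circuits, there are many more circuits than bases. -/
lemma conclude {n r K : ℕ} {𝒩 : Finset (RankMatroid n r)} (h : IsTransversal 𝒩)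
    (hfew : 2 * (n ! * Nat.card (Few n r K)) ≤ Nat.card (RankMatroid n r)) :
    n * ∑ M ∈ 𝒩, numBases M.1 ≤ 2 * K * ∑ M ∈ 𝒩, numCircuits M.1 := by
  classical
  set 𝒢 := 𝒩.filter (fun M => K * numCircuits M.1 < n ^ (r + 1)) with h𝒢
  have h1 : 𝒢.card ≤ Nat.card (Few n r K) := by
    have h2 : Nat.card {N // N ∈ 𝒢} = 𝒢.card := by
      rw [Nat.card_eq_fintype_card, Fintype.card_coe]
    rw [← h2]
    refine Nat.card_le_card_of_injective
      (fun N : {N // N ∈ 𝒢} => (⟨N.1, (Finset.mem_filter.1 N.2).2⟩ : Few n r K)) ?_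
    intro N N' hNN
    exact Subtype.ext (congrArg (fun X : Few n r K => X.1) hNN)
  have h2 : 2 * 𝒢.card ≤ 𝒩.card := by
    have h3 : (2 * 𝒢.card) * n ! ≤ 𝒩.card * n ! := by
      calc (2 * 𝒢.card) * n ! = 2 * (n ! * 𝒢.card) := by ring
        _ ≤ 2 * (n ! * Nat.card (Few n r K)) := by gcongr
        _ ≤ Nat.card (RankMatroid n r) := hfew
        _ ≤ _ := card_rankMatroid_le h
    exact Nat.le_of_mul_le_mul_right h3 (Nat.factorial_pos n)
  have h3 : (𝒩.card - 𝒢.card) * n ^ (r + 1) ≤ K * ∑ M ∈ 𝒩, numCircuits M.1 := by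
    have h4 : 𝒩.card - 𝒢.card = (𝒩.filter (fun M => ¬ K * numCircuits M.1 < n ^ (r + 1))).card := by
      have h5 := Finset.card_filter_add_card_filter_not (s := 𝒩)
        (fun M => K * numCircuits M.1 < n ^ (r + 1))
      rw [← h𝒢] at h5
      omega
    rw [h4, ← smul_eq_mul, ← Finset.sum_const, Finset.mul_sum]
    calc ∑ _M ∈ 𝒩.filter (fun M => ¬ K * numCircuits M.1 < n ^ (r + 1)), n ^ (r + 1)
        ≤ ∑ M ∈ 𝒩.filter (fun M => ¬ K * numCircuits M.1 < n ^ (r + 1)),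
          K * numCircuits M.1 := by
          refine Finset.sum_le_sum ?_
          intro M hM
          rw [Finset.mem_filter] at hM
          exact not_lt.1 hM.2
      _ ≤ ∑ M ∈ 𝒩, K * numCircuits M.1 :=
          Finset.sum_le_sum_of_subset (Finset.filter_subset _ _)
  have h4 : ∑ M ∈ 𝒩, numBases M.1 ≤ 𝒩.card * n ^ r := by
    rw [← smul_eq_mul, ← Finset.sum_const]
    exact Finset.sum_le_sum fun M _ => numBases_le M
  calc n * ∑ M ∈ 𝒩, numBases M.1 ≤ n * (𝒩.card * n ^ r) := Nat.mul_le_mul_left _ h4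
    _ = 𝒩.card * n ^ (r + 1) := by ring
    _ ≤ (2 * (𝒩.card - 𝒢.card)) * n ^ (r + 1) := Nat.mul_le_mul_right _ (by omega)
    _ = 2 * ((𝒩.card - 𝒢.card) * n ^ (r + 1)) := by ring
    _ ≤ 2 * (K * ∑ M ∈ 𝒩, numCircuits M.1) := Nat.mul_le_mul_left _ h3
    _ = _ := by ring

/-- Explicit constants. -/
def cK (s : ℕ) : ℕ := (s + 2) * 2 ^ (s + 3)

/-- Explicit constants. -/
def cP (s : ℕ) : ℕ := (4 * s) ^ s

/-- Explicit constants. -/
def cD (s : ℕ) : ℕ := 4 * s * cP s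

/-- Explicit constants. -/
def cQ (s : ℕ) : ℕ := cK s ^ (s + 1) * cD s

/-- Explicit constants. -/
def cN (s : ℕ) : ℕ := 4 * cP s * (4 + 2 ^ cQ s * s) + cQ s + 12 * s + 65

/-- Explicit constants. -/
def cC (s : ℕ) : ℕ := 2 * (cQ s ^ (s + 2) * (2 * (s + 2) ^ (s + 2)))

/-- The main inequality in rank `ρ + 3`. -/
theorem main {ρ n : ℕ} (hn : cN (ρ + 2) ≤ n) {𝒩 : Finset (RankMatroid n (ρ + 3))}
    (h : IsTransversal 𝒩) :
    n * ∑ M ∈ 𝒩, numBases M.1 ≤ cC (ρ + 2) * ∑ M ∈ 𝒩, numCircuits M.1 := by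
  have hn' : 4 * cP (ρ + 2) * (4 + 2 ^ cQ (ρ + 2) * (ρ + 2)) + cQ (ρ + 2) +
      12 * (ρ + 2) + 65 ≤ n := hn
  have hn0 : 12 * (ρ + 2) + 65 ≤ n := by omega
  have h1 := card_few_le (n := n) (s := ρ + 2) (K := cK (ρ + 2)) (D := cD (ρ + 2)) (by omega)
    (by omega) le_rfl (Nat.one_le_iff_ne_zero.2 (by unfold cD cP; positivity))
  have h2 := card_lowRank_le (n := n) (by omega) ρ
  have h3 := numeric (ρ := ρ) (n := n) (Q := cQ (ρ + 2)) (D := cD (ρ + 2)) (P := cP (ρ + 2))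
    (a := Nat.card (LowRank n (ρ + 2))) rfl rfl hn' h2
  have hm : 0 < n / (3 * (ρ + 2)) := Nat.div_pos (by omega) (by omega)
  have h4 := card_rankMatroid_ge (n := n) (s := ρ + 2) (m := n / (3 * (ρ + 2))) (by omega) hm
    (by rw [← mul_assoc]; exact Nat.mul_div_le n _) (by omega)
  refine conclude h ?_
  refine le_trans ?_ h4
  refine le_trans ?_ h3
  gcongr
  exact h1

lemma bases_pos {n r : ℕ} (hrn : r ≤ n) {𝒩 : Finset (RankMatroid n r)} (h : IsTransversal 𝒩) :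
    0 < ∑ M ∈ 𝒩, numBases M.1 := by
  obtain ⟨M₀⟩ := nonempty_rankMatroid hrn
  obtain ⟨M, ⟨hM, -⟩, -⟩ := h M₀
  exact lt_of_lt_of_le (numBases_pos M)
    (Finset.single_le_sum (f := fun M : RankMatroid n r => numBases M.1)
      (fun _ _ => Nat.zero_le _) hM)

/-- In every rank `r ≥ 3` there are more circuits than bases for all large `n`, by a factor of
order `n`. -/
theorem exists_many {r : ℕ} (hr : 3 ≤ r) : ∃ K N : ℕ, ∀ n, N ≤ n →
    ∀ 𝒩 : Finset (RankMatroid n r), IsTransversal 𝒩 →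
      n * ∑ M ∈ 𝒩, numBases M.1 ≤ K * ∑ M ∈ 𝒩, numCircuits M.1 ∧
      ∑ M ∈ 𝒩, numBases M.1 < ∑ M ∈ 𝒩, numCircuits M.1 := by
  obtain ⟨ρ, rfl⟩ : ∃ ρ, r = ρ + 3 := ⟨r - 3, by omega⟩
  refine ⟨cC (ρ + 2), cN (ρ + 2) + cC (ρ + 2) + 1 + (ρ + 3), fun n hn 𝒩 h => ?_⟩
  have h1 := main (by omega) h
  refine ⟨h1, ?_⟩
  have h2 := bases_pos (by omega) h
  by_contra hcon
  push Not at hcon
  have h3 : cC (ρ + 2) * ∑ M ∈ 𝒩, numCircuits M.1 ≤ cC (ρ + 2) * ∑ M ∈ 𝒩, numBases M.1 :=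
    Nat.mul_le_mul_left _ hcon
  have h4 : n ≤ cC (ρ + 2) := Nat.le_of_mul_le_mul_right (h1.trans h3) h2
  omega

end Pool.Agent.Work.MP_f3d170_co_helper60
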